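import Pool.Agent.H.MP_501377_al.Kat

set_option autoImplicit false

namespace Pool.Agent.H501377

universe u

section act
variable {H : Type u} [Group H]

def sm (g : H) (p : H × ℕ) : H × ℕ := (g * p.1, p.2)

lemma sm_sm (g h : H) (p : H × ℕ) : sm g (sm h p) = sm (g * h) p := by simp [sm, mul_assoc]
lemma sm_one (p : H × ℕ) : sm 1 p = p := by simp [sm]

structure Good (d : H × ℕ → H × ℕ → ℝ) : Prop where
  pm : PM d
  inv : ∀ g p q, d (sm g p) (sm g q) = d p q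

variable (N : H → ℝ)

def Lip (d : H × ℕ → H × ℕ → ℝ) (i : ℕ) (c : ℝ) : Prop := ∀ g, d (g, i) (1, i) ≤ c * N g

variable {N}

lemma add_orbit (hN : ∀ g, N g⁻¹ = N g) {d : H × ℕ → H × ℕ → ℝ} (hd : Good d) (n : ℕ)
    {φ : H × ℕ → ℝ} (hφ : Kat d φ) {c : ℝ} (hc : ∀ g z, φ (sm g⁻¹ z) ≤ φ z + c * N g) :
    ∃ d', Good d' ∧ (∀ p q, p.2 ≠ n → q.2 ≠ n → d' p q = d p q) ∧
      (∀ q, q.2 ≠ n → d' (1, n) q = φ q) ∧ Lip N d' n c := by
  let F : H × ℕ → H × ℕ → ℝ := fun p => if p.2 = n then fun z => φ (sm p.1⁻¹ z) else d p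
  have hF : ∀ p, Kat d (F p) := fun p => by
    by_cases h : p.2 = n
    · simp only [F, if_pos h]
      exact ⟨fun z w => by rw [← hd.inv p.1⁻¹ w z]; exact hφ.lip _ _,
        fun z w => by rw [← hd.inv p.1⁻¹ z w]; exact hφ.low _ _⟩
    · simp only [F, if_neg h]; exact hd.pm.kat p
  have hFi : ∀ g p z, F (sm g p) z = F p (sm g⁻¹ z) := by
    intro g p z
    by_cases h : p.2 = n
    · have h' : (sm g p).2 = n := h
      simp only [F, if_pos h, if_pos h', sm_sm]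
      simp [sm]
    · have h' : (sm g p).2 ≠ n := h
      simp only [F, if_neg h, if_neg h']
      rw [← hd.inv g⁻¹, sm_sm, inv_mul_cancel, sm_one]
  have hle : ∀ g p q, sd (F (sm g p)) (F (sm g q)) ≤ sd (F p) (F q) := fun g p q =>
    sd_le fun z => by rw [hFi, hFi]; exact le_sd hd.pm (hF p) (hF q) _
  refine ⟨fun p q => sd (F p) (F q), ⟨PM_sd hd.pm hF, fun g p q => le_antisymm (hle g p q) ?_⟩,
    fun p q hp hq => ?_, fun q hq => ?_, fun g => ?_⟩
  · have := hle g⁻¹ (sm g p) (sm g q)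
    rwa [sm_sm, sm_sm, inv_mul_cancel, sm_one, sm_one] at this
  · simp only [F, if_neg hp, if_neg hq]
    exact sd_kur hd.pm (hd.pm.kat p) q
  · simp only [F, if_neg hq, if_true, inv_one, sm_one]
    exact sd_kur hd.pm hφ q
  · refine sd_le fun z => ?_
    simp only [F, if_true, inv_one, sm_one]
    have h1 := hc g z
    have h2 := hc g⁻¹ (sm g⁻¹ z)
    rw [sm_sm, inv_inv, mul_inv_cancel, sm_one, hN] at h2
    exact abs_le.2 ⟨by linarith, by linarith⟩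

variable {dX : ℕ → ℕ → ℝ}

def Match (dX : ℕ → ℕ → ℝ) (I : Finset ℕ) (d : H × ℕ → H × ℕ → ℝ) : Prop :=
  ∀ i ∈ I, ∀ j ∈ I, d (1, i) (1, j) = dX i j

def Agree (I : Finset ℕ) (d' d : H × ℕ → H × ℕ → ℝ) : Prop :=
  ∀ p q, p.2 ∈ I → q.2 ∈ I → d' p q = d p q

lemma lip_aux {d : H × ℕ → H × ℕ → ℝ} (hd : Good d) {i : ℕ} {c : ℝ} (h : Lip N d i c) (g : H)
    (z : H × ℕ) : d (1, i) (sm g⁻¹ z) ≤ d (1, i) z + c * N g := by
  rw [← hd.inv g, sm_sm, mul_inv_cancel, sm_one]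
  have h1 := hd.pm.tri (sm g (1, i)) (1, i) z
  have h2 := h g
  have : sm g ((1 : H), i) = (g, i) := by simp [sm]
  rw [this] at h1 ⊢
  linarith

lemma match_insert (hX : PM dX) {d d' : H × ℕ → H × ℕ → ℝ} (hd' : Good d') {I : Finset ℕ} {n : ℕ}
    (hn : n ∉ I) (hM : Match dX I d) (hA : ∀ p q, p.2 ≠ n → q.2 ≠ n → d' p q = d p q)
    (hv : ∀ i ∈ I, d' (1, n) (1, i) = dX n i) : Match dX (insert n I) d' := by
  have hne : ∀ i ∈ I, i ≠ n := fun i hi h => hn (h ▸ hi)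
  intro i hi j hj
  rcases Finset.mem_insert.1 hi with hi' | hi' <;> rcases Finset.mem_insert.1 hj with hj' | hj'
  · rw [hi', hj', hd'.pm.self, hX.self]
  · rw [hi']; exact hv j hj'
  · rw [hj', hd'.pm.comm, hX.comm]; exact hv i hi'
  · rw [hA _ _ (hne i hi') (hne j hj')]; exact hM i hi' j hj'

lemma fill1 (hN : ∀ g, N g⁻¹ = N g) (hX : PM dX) {d : H × ℕ → H × ℕ → ℝ} (hd : Good d)
    {I : Finset ℕ} (h0 : 0 ∈ I) (hM : Match dX I d) {c : ℝ} (hL : ∀ i ∈ I, Lip N d i c) {n : ℕ}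
    (hn : n ∉ I) : ∃ d', Good d' ∧ Agree I d' d ∧ Match dX (insert n I) d' ∧ Lip N d' n c := by
  have : Nonempty I := ⟨⟨0, h0⟩⟩
  have hne : ∀ i ∈ I, i ≠ n := fun i hi h => hn (h ▸ hi)
  have hr : ∀ i j : I, d (1, i) (1, j) ≤ dX n i + dX n j := fun i j => by
    rw [hM i i.2 j j.2, hX.comm n i]; exact hX.tri _ _ _
  obtain ⟨d', h1, h2, h3, h4⟩ := add_orbit hN hd n
    (kat_ext (y := fun i : I => ((1 : H), (i : ℕ))) (r := fun i => dX n i) hd.pm hr) (c := c) (by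
      intro g z
      rw [← sub_le_iff_le_add]
      refine le_ext fun i => ?_
      have := ext_le (y := fun i : I => ((1 : H), (i : ℕ))) (r := fun i => dX n i) hd.pm hr i
        (sm g⁻¹ z)
      have := lip_aux hd (hL i i.2) g z
      linarith)
  refine ⟨d', h1, fun p q hp hq => h2 p q (hne _ hp) (hne _ hq),
    match_insert hX h1 hn hM h2 fun i hi => ?_, h4⟩
  rw [h3 _ (hne i hi)]
  refine le_antisymm ?_ (le_ext fun j => ?_)
  · have := ext_le (y := fun i : I => ((1 : H), (i : ℕ))) (r := fun i => dX n i) hd.pm hr ⟨i, hi⟩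
      (1, i)
    rwa [hd.pm.self, add_zero] at this
  · rw [hM j j.2 i hi]; exact hX.tri _ _ _

lemma Agree.lip {I : Finset ℕ} {d' d : H × ℕ → H × ℕ → ℝ} (h : Agree I d' d) {i : ℕ} (hi : i ∈ I)
    {c : ℝ} (hL : Lip N d i c) : Lip N d' i c := fun g => by
  rw [h _ _ hi hi]; exact hL g

omit [Group H] in
lemma Agree.trans {I J : Finset ℕ} {d'' d' d : H × ℕ → H × ℕ → ℝ} (h : Agree J d'' d')
    (h' : Agree I d' d) (hIJ : I ⊆ J) : Agree I d'' d := fun p q hp hq => by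
  rw [h p q (hIJ hp) (hIJ hq), h' p q hp hq]

lemma fillMany (hN : ∀ g, N g⁻¹ = N g) (hX : PM dX) {d : H × ℕ → H × ℕ → ℝ} (hd : Good d)
    {I : Finset ℕ} (h0 : 0 ∈ I) (hM : Match dX I d) {c : ℝ} (hL : ∀ i ∈ I, Lip N d i c)
    (J : Finset ℕ) :
    ∃ d', Good d' ∧ Agree I d' d ∧ Match dX (I ∪ J) d' ∧ ∀ i ∈ I ∪ J, Lip N d' i c := by
  induction J using Finset.induction_on with
  | empty => exact ⟨d, hd, fun _ _ _ _ => rfl, by simpa using hM, by simpa using hL⟩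
  | insert a J _ ih =>
    obtain ⟨d', h1, h2, h3, h4⟩ := ih
    rw [Finset.union_insert]
    by_cases ha : a ∈ I ∪ J
    · rw [Finset.insert_eq_of_mem ha]
      exact ⟨d', h1, h2, h3, h4⟩
    · obtain ⟨d'', k1, k2, k3, k4⟩ := fill1 hN hX h1 (Finset.mem_union_left _ h0) h3 h4 ha
      refine ⟨d'', k1, k2.trans h2 Finset.subset_union_left, k3, fun i hi => ?_⟩
      rcases Finset.mem_insert.1 hi with rfl | hi
      · exact k4
      · exact k2.lip hi (h4 i hi)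

lemma Lip.mono (hN0 : ∀ g, 0 ≤ N g) {d : H × ℕ → H × ℕ → ℝ} {i : ℕ} {c c' : ℝ} (h : Lip N d i c)
    (hc : c ≤ c') : Lip N d i c' := fun g =>
  (h g).trans (mul_le_mul_of_nonneg_right hc (hN0 g))

structure State (N : H → ℝ) (dX : ℕ → ℕ → ℝ) (L : ℕ → ℝ) (k : ℕ)
    (d : H × ℕ → H × ℕ → ℝ) : Prop where
  pos : 0 < k
  good : Good d
  base : ∀ g, d (g, 0) (1, 0) = N g
  mat : Match dX (Finset.range k) d
  lip : ∀ i < k, Lip N d i (L i)

variable {L : ℕ → ℝ}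

lemma State.grow (hN : ∀ g, N g⁻¹ = N g) (hN0 : ∀ g, 0 ≤ N g) (hX : PM dX) (hL : Monotone L)
    {k : ℕ} {d : H × ℕ → H × ℕ → ℝ} (h : State N dX L k d) {k' : ℕ} (hk : k ≤ k') :
    ∃ d', State N dX L k' d' ∧ Agree (Finset.range k) d' d := by
  induction hk with
  | refl => exact ⟨d, h, fun _ _ _ _ => rfl⟩
  | @step m hm ih =>
    obtain ⟨d', h1, h2⟩ := ih
    have h0 : 0 ∈ Finset.range m := Finset.mem_range.2 h1.pos
    obtain ⟨d'', k1, k2, k3, k4⟩ := fill1 hN hX h1.good h0 h1.mat (c := L m)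
      (fun i hi => (h1.lip i (Finset.mem_range.1 hi)).mono hN0 (hL (Finset.mem_range.1 hi).le))
      (n := m) (by simp)
    refine ⟨d'', ⟨Nat.succ_pos _, k1, fun g => by rw [k2 _ _ h0 h0, h1.base],
      by rwa [Nat.succ_eq_add_one, Finset.range_add_one], fun i hi => ?_⟩,
      k2.trans h2 (Finset.range_mono hm)⟩
    rcases (Nat.lt_succ_iff.1 hi).eq_or_lt with rfl | hi
    · exact k4
    · exact k2.lip (Finset.mem_range.2 hi) (h1.lip i hi)

lemma State.step (hN : ∀ g, N g⁻¹ = N g) (hN0 : ∀ g, 0 ≤ N g) (hN1 : N 1 = 0)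
    (hNm : ∀ g h, N (g * h) ≤ N g + N h)
    (hNc : ∀ (h : H) (ε : ℝ), 0 < ε → ∃ δ, 0 < δ ∧ ∀ g, N g < δ → N (h⁻¹ * g * h) ≤ ε)
    (hX : PM dX) (hgen : ∀ (k : ℕ) (r : ℕ → ℝ) (ε : ℝ), 0 < ε →
      (∀ i < k, ∀ j < k, r i ≤ r j + dX j i ∧ dX i j ≤ r i + r j) →
      ∃ n, k ≤ n ∧ ∀ i < k, r i ≤ dX n i ∧ dX n i ≤ r i + ε)
    (hL : Monotone L) (hL0 : ∀ i, 0 < L i) (hLu : ∀ c, ∃ i, c ≤ L i)
    {k : ℕ} {d : H × ℕ → H × ℕ → ℝ} (h : State N dX L k d) (y : H × ℕ) (hy : y.2 < k) {ε : ℝ}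
    (hε : 0 < ε) : ∃ k', k < k' ∧ ∃ d', State N dX L k' d' ∧ Agree (Finset.range k) d' d ∧
      ∃ n < k', d' (1, n) y ≤ 2 * ε := by
  obtain ⟨x, m⟩ := y
  obtain ⟨c, hc0, hc⟩ : ∃ c, 0 ≤ c ∧ ∀ g, d (sm g (x, m)) (x, m) ≤ c * N g + ε := by
    obtain ⟨δ, hδ, hδ'⟩ := hNc x (ε / L m) (div_pos hε (hL0 m))
    have hLm := hL0 m
    have hx := hN0 x
    refine ⟨L m * (1 + 2 * N x / δ), by positivity, fun g => ?_⟩
    have e1 : d (sm g (x, m)) (x, m) = d (x⁻¹ * g * x, m) (1, m) := by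
      rw [← h.good.inv x⁻¹]; simp [sm, mul_assoc]
    have e2 := h.lip m hy (x⁻¹ * g * x)
    have hg := hN0 g
    rw [e1]
    refine e2.trans ?_
    by_cases hgd : N g < δ
    · have := mul_le_mul_of_nonneg_left (hδ' g hgd) hLm.le
      rw [mul_div_cancel₀ _ hLm.ne'] at this
      have : 0 ≤ L m * (1 + 2 * N x / δ) * N g := by positivity
      linarith
    · have h1 : N (x⁻¹ * g * x) ≤ N g + 2 * N x := by
        have := hNm (x⁻¹ * g) x
        have := hNm x⁻¹ g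
        rw [hN] at this
        linarith
      have h2 : 2 * N x ≤ 2 * N x / δ * N g := by
        rw [div_mul_eq_mul_div, le_div_iff₀ hδ]
        exact mul_le_mul_of_nonneg_left (not_lt.1 hgd) (by positivity)
      have h3 : L m * N (x⁻¹ * g * x) ≤ L m * ((1 + 2 * N x / δ) * N g) :=
        mul_le_mul_of_nonneg_left (by linarith) hLm.le
      linarith
  obtain ⟨i0, hi0⟩ := hLu c
  obtain ⟨d1, s1, a1⟩ := h.grow hN hN0 hX hL (le_max_left k i0)
  set k1 := max k i0 with hk1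
  have hkk : k ≤ k1 := le_max_left _ _
  have hck : c ≤ L k1 := hi0.trans (hL (le_max_right _ _))
  have hm : m ∈ Finset.range k := Finset.mem_range.2 hy
  have hc1 : ∀ g, d1 (sm g (x, m)) (x, m) ≤ L k1 * N g + ε := fun g => by
    rw [a1 _ _ hm hm]
    have := mul_le_mul_of_nonneg_right hck (hN0 g)
    have := hc g
    linarith
  have hpair : ∀ g g' : H, d1 (sm g (x, m)) (sm g' (x, m)) ≤ (L k1 * N g + ε) + (L k1 * N g' + ε) := by
    intro g g'
    have h1 := s1.good.pm.tri (sm g (x, m)) (x, m) (sm g' (x, m))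
    rw [s1.good.pm.comm (x, m)] at h1
    have := hc1 g
    have := hc1 g'
    linarith
  let f := ext d1 (fun g : H => sm g (x, m)) (fun g => L k1 * N g + ε)
  have hf : Kat d1 f := kat_ext s1.good.pm hpair
  have hfle : ∀ g z, f z ≤ L k1 * N g + ε + d1 (sm g (x, m)) z := fun g z =>
    ext_le s1.good.pm hpair g z
  have hmat : ∀ i < k1, ∀ j < k1, d1 (1, i) (1, j) = dX i j := fun i hi j hj =>
    s1.mat i (Finset.mem_range.2 hi) j (Finset.mem_range.2 hj)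
  obtain ⟨n, hn, hnr⟩ := hgen k1 (fun i => f (1, i)) ε hε (fun i hi j hj =>
    ⟨by rw [← hmat j hj i hi]; exact hf.lip _ _, by rw [← hmat i hi j hj]; exact hf.low _ _⟩)
  let Y : H ⊕ Fin k1 → H × ℕ := Sum.elim (fun g => sm g (x, m)) (fun i => (1, i))
  let r : H ⊕ Fin k1 → ℝ := Sum.elim (fun g => L k1 * N g + 2 * ε) (fun i => dX n i)
  have hmix : ∀ (g : H) (i : Fin k1), d1 (sm g (x, m)) (1, i) ≤ L k1 * N g + 2 * ε + dX n i := by
    intro g i
    have h1 := hf.low (sm g (x, m)) (1, i)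
    have h2 := hfle g (sm g (x, m))
    rw [s1.good.pm.self] at h2
    have h3 := (hnr i i.2).1
    linarith
  have hY : ∀ a b, d1 (Y a) (Y b) ≤ r a + r b := by
    rintro (g | i) (g' | j)
    · have := hpair g g'
      show d1 (sm g (x, m)) (sm g' (x, m)) ≤ (L k1 * N g + 2 * ε) + (L k1 * N g' + 2 * ε)
      linarith
    · exact hmix g j
    · rw [s1.good.pm.comm, add_comm]; exact hmix g' i
    · show d1 (1, i) (1, j) ≤ dX n i + dX n j
      rw [hmat i i.2 j j.2, hX.comm n i]; exact hX.tri _ _ _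
  have hlip1 : ∀ i < k1, Lip N d1 i (L k1) := fun i hi => (s1.lip i hi).mono hN0 (hL hi.le)
  obtain ⟨d2, g2, a2, v2, l2⟩ := add_orbit hN s1.good n (kat_ext s1.good.pm hY) (c := L k1) (by
    intro g z
    rw [← sub_le_iff_le_add]
    refine le_ext ?_
    rintro (g' | i)
    · have h1 := ext_le s1.good.pm hY (Sum.inl (g⁻¹ * g')) (sm g⁻¹ z)
      have h2 : d1 (Y (Sum.inl (g⁻¹ * g'))) (sm g⁻¹ z) = d1 (sm g' (x, m)) z := by
        show d1 (sm (g⁻¹ * g') (x, m)) _ = _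
        rw [← sm_sm, s1.good.inv]
      have h3 := hNm g⁻¹ g'
      rw [hN] at h3
      have h4 := mul_le_mul_of_nonneg_left h3 (hL0 k1).le
      rw [h2] at h1
      have h5 : r (Sum.inl (g⁻¹ * g')) = L k1 * N (g⁻¹ * g') + 2 * ε := rfl
      show _ ≤ L k1 * N g' + 2 * ε + d1 (sm g' (x, m)) z
      linarith
    · have h1 := ext_le s1.good.pm hY (Sum.inr i) (sm g⁻¹ z)
      have h2 := lip_aux s1.good (hlip1 i i.2) g z
      have h3 : d1 (Y (Sum.inr i)) (sm g⁻¹ z) = d1 (1, i) (sm g⁻¹ z) := rfl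
      show _ ≤ r (Sum.inr i) + d1 (1, i) z
      linarith)
  have hnn : n ∉ Finset.range k1 := by simp [hn]
  have hne : ∀ i ∈ Finset.range k1, i ≠ n := fun i hi h => hnn (h ▸ hi)
  have a2' : Agree (Finset.range k1) d2 d1 := fun p q hp hq => a2 p q (hne _ hp) (hne _ hq)
  have m2 : Match dX (insert n (Finset.range k1)) d2 := by
    refine match_insert hX g2 hnn s1.mat a2 fun i hi => ?_
    have hi' := Finset.mem_range.1 hi
    rw [v2 _ (hne i hi)]
    refine le_antisymm ?_ (le_ext ?_)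
    · have := ext_le s1.good.pm hY (Sum.inr ⟨i, hi'⟩) (1, i)
      rw [show d1 (Y (Sum.inr ⟨i, hi'⟩)) (1, i) = 0 from s1.good.pm.self _, add_zero] at this
      exact this
    · rintro (g | j)
      · have h1 := hfle g (1, i)
        have h2 := (hnr i hi').2
        show _ ≤ L k1 * N g + 2 * ε + d1 (sm g (x, m)) (1, i)
        linarith
      · show _ ≤ dX n j + d1 (1, j) (1, i)
        rw [hmat j j.2 i hi']; exact hX.tri _ _ _
  have h0 : 0 ∈ Finset.range k1 := Finset.mem_range.2 s1.pos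
  obtain ⟨d3, g3, a3, m3, l3⟩ := fillMany hN hX g2 (Finset.mem_insert_of_mem h0) m2 (c := L k1)
    (fun i hi => by
      rcases Finset.mem_insert.1 hi with rfl | hi
      · exact l2
      · exact a2'.lip hi (hlip1 i (Finset.mem_range.1 hi))) (Finset.range (n + 1))
  have a3' : Agree (Finset.range k1) d3 d1 := a3.trans a2' (Finset.subset_insert _ _)
  have hmk : m ∈ Finset.range k1 := Finset.range_mono hkk hm
  refine ⟨n + 1, by omega, d3, ⟨Nat.succ_pos _, g3, fun g => by rw [a3' _ _ h0 h0, s1.base],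
    fun i hi j hj => m3 i (Finset.mem_union_right _ hi) j (Finset.mem_union_right _ hj),
    fun i hi => ?_⟩, a3'.trans a1 (Finset.range_mono hkk), n, Nat.lt_succ_self _, ?_⟩
  · by_cases hik : i < k1
    · exact a3'.lip (Finset.mem_range.2 hik) (s1.lip i hik)
    · exact (l3 i (Finset.mem_union_right _ (Finset.mem_range.2 hi))).mono hN0 (hL (not_lt.1 hik))
  · rw [a3 _ _ (Finset.mem_insert_self _ _) (Finset.mem_insert_of_mem hmk), v2 _ (hne m hmk)]
    have := ext_le s1.good.pm hY (Sum.inl 1) (x, m)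
    have h1 : d1 (Y (Sum.inl 1)) (x, m) = 0 := by
      show d1 (sm 1 (x, m)) _ = 0
      rw [sm_one, s1.good.pm.self]
    have h2 : r (Sum.inl 1) = 2 * ε := by
      show L k1 * N 1 + 2 * ε = _
      rw [hN1, mul_zero, zero_add]
    rwa [h1, h2, add_zero] at this

theorem exists_action (hN : ∀ g, N g⁻¹ = N g) (hN0 : ∀ g, 0 ≤ N g) (hN1 : N 1 = 0)
    (hNm : ∀ g h, N (g * h) ≤ N g + N h)
    (hNc : ∀ (h : H) (ε : ℝ), 0 < ε → ∃ δ, 0 < δ ∧ ∀ g, N g < δ → N (h⁻¹ * g * h) ≤ ε)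
    (u : ℕ → H) (hu : ∀ (h : H) (ε : ℝ), 0 < ε → ∃ a, N ((u a)⁻¹ * h) ≤ ε)
    (hX : PM dX) (hgen : ∀ (k : ℕ) (r : ℕ → ℝ) (ε : ℝ), 0 < ε →
      (∀ i < k, ∀ j < k, r i ≤ r j + dX j i ∧ dX i j ≤ r i + r j) →
      ∃ n, k ≤ n ∧ ∀ i < k, r i ≤ dX n i ∧ dX n i ≤ r i + ε)
    (hL : Monotone L) (hL0 : ∀ i, 0 < L i) (hL1 : L 0 = 1) (hLu : ∀ c, ∃ i, c ≤ L i) :
    ∃ e : H × ℕ → H × ℕ → ℝ, Good e ∧ (∀ g, e (g, 0) (1, 0) = N g) ∧
      (∀ i j, e (1, i) (1, j) = dX i j) ∧ (∀ i, Lip N e i (L i)) ∧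
      ∀ (p : H × ℕ) (ε : ℝ), 0 < ε → ∃ n, e (1, n) p < ε := by
  have s0 : State N dX L 1 (fun p q => N (p.1⁻¹ * q.1)) := by
    refine ⟨one_pos, ⟨⟨fun p => by simp [hN1], fun p q => by rw [← hN]; simp, fun p q r => ?_⟩,
      fun g p q => by simp [sm, mul_assoc]⟩, fun g => by simp [hN], fun i hi j hj => ?_,
      fun i hi g => ?_⟩
    · have := hNm (p.1⁻¹ * q.1) (q.1⁻¹ * r.1)
      simpa [mul_assoc] using this
    · simp only [Finset.range_one, Finset.mem_singleton] at hi hj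
      simp [hi, hj, hN1, hX.self]
    · have : i = 0 := by omega
      simp [this, hL1, hN]
  have key : ∀ (s : {s : ℕ × (H × ℕ → H × ℕ → ℝ) // State N dX L s.1 s.2}) (t : ℕ),
      ∃ s' : {s : ℕ × (H × ℕ → H × ℕ → ℝ) // State N dX L s.1 s.2}, s.1.1 < s'.1.1 ∧
        Agree (Finset.range s.1.1) s'.1.2 s.1.2 ∧ ∃ n < s'.1.1,
          s'.1.2 (1, n) (u t.unpair.1.unpair.1, t.unpair.1.unpair.2 % s.1.1) ≤ 2 * (1 / (t + 1)) := by
    intro s t
    obtain ⟨k', h1, d', h2, h3, h4⟩ := s.2.step hN hN0 hN1 hNm hNc hX hgen hL hL0 hLu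
      (u t.unpair.1.unpair.1, t.unpair.1.unpair.2 % s.1.1) (Nat.mod_lt _ s.2.pos)
      (ε := 1 / (t + 1)) (by positivity)
    exact ⟨⟨(k', d'), h2⟩, h1, h3, h4⟩
  choose nx h1 h2 h3 using key
  let σ : ℕ → {s : ℕ × (H × ℕ → H × ℕ → ℝ) // State N dX L s.1 s.2} := fun t =>
    Nat.rec ⟨(1, _), s0⟩ (fun t s => nx s t) t
  have hσ : ∀ t, σ (t + 1) = nx (σ t) t := fun _ => rfl
  have hk : StrictMono fun t => (σ t).1.1 := strictMono_nat_of_lt_succ fun t => h1 (σ t) t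
  obtain ⟨e, he⟩ := exists_limit (fun t => (σ t).1.2) Prod.snd _ hk
    (fun t p q hp hq => h2 (σ t) t p q (Finset.mem_range.2 hp) (Finset.mem_range.2 hq))
  have hge : ∀ t, t ≤ (σ t).1.1 := fun t => hk.id_le t
  have hgood : Good e := by
    refine ⟨PM_limit hk (fun t => (σ t).2.good.pm) he, fun g p q => ?_⟩
    have := hge (p.2 + q.2 + 1)
    rw [he (p.2 + q.2 + 1) p q (by omega) (by omega),
      he (p.2 + q.2 + 1) (sm g p) (sm g q) (by show p.2 < _; omega) (by show q.2 < _; omega)]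
    exact (σ (p.2 + q.2 + 1)).2.good.inv _ _ _
  have hlip : ∀ i, Lip N e i (L i) := fun i g => by
    have := hge (i + 1)
    rw [he (i + 1) _ _ (by show i < _; omega) (by show i < _; omega)]
    exact (σ (i + 1)).2.lip i (by omega) g
  refine ⟨e, hgood, fun g => ?_, fun i j => ?_, hlip, fun p ε hε => ?_⟩
  · rw [he 0 _ _ (σ 0).2.pos (σ 0).2.pos]; exact (σ 0).2.base g
  · have := hge (i + j + 1)
    rw [he (i + j + 1) _ _ (by show i < _; omega) (by show j < _; omega)]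
    exact (σ (i + j + 1)).2.mat i (Finset.mem_range.2 (by omega)) j (Finset.mem_range.2 (by omega))
  · obtain ⟨x, m⟩ := p
    obtain ⟨a, ha⟩ := hu x (ε / 2 / L m) (div_pos (half_pos hε) (hL0 m))
    obtain ⟨s, hs⟩ := exists_nat_one_div_lt (show 0 < ε / 4 by positivity)
    set t := Nat.pair (Nat.pair a m) (s + m + 1) with ht
    have h4 : s + m + 1 ≤ t := Nat.right_le_pair _ _
    obtain ⟨n, hn, h5⟩ := h3 (σ t) t
    have h6 := hge t
    have h7 := h1 (σ t) t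
    rw [ht, Nat.unpair_pair, Nat.unpair_pair, ← ht, Nat.mod_eq_of_lt (by omega), ← hσ] at h5
    rw [← hσ] at hn h7
    rw [← he (t + 1) _ _ hn (by show m < _; omega)] at h5
    refine ⟨n, ?_⟩
    have h8 := hgood.pm.tri (1, n) (u a, m) (x, m)
    have h9 : e (u a, m) (x, m) = e ((u a)⁻¹ * x, m) (1, m) := by
      rw [← hgood.inv (u a)⁻¹, hgood.pm.comm]; simp [sm]
    have h10 := hlip m ((u a)⁻¹ * x)
    have h11 := mul_le_mul_of_nonneg_left ha (hL0 m).le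
    rw [mul_div_cancel₀ _ (hL0 m).ne'] at h11
    have h12 : (1 : ℝ) / (t + 1) ≤ 1 / (s + 1) := by
      apply one_div_le_one_div_of_le (by positivity)
      have : s ≤ t := by omega
      exact_mod_cast Nat.succ_le_succ this
    linarith

end act

end Pool.Agent.H501377
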