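import Mathlib

set_option autoImplicit false

namespace Pool.Agent.H501377

universe u v

section general
variable {P : Type u}

structure PM (d : P → P → ℝ) : Prop where
  self : ∀ p, d p p = 0
  comm : ∀ p q, d p q = d q p
  tri : ∀ p q r, d p r ≤ d p q + d q r

lemma PM.nonneg {d : P → P → ℝ} (h : PM d) (p q : P) : 0 ≤ d p q := by
  have := h.tri p q p
  rw [h.self, h.comm q p] at this
  linarith

/-- Katetov functions -/
structure Kat (d : P → P → ℝ) (f : P → ℝ) : Prop where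
  lip : ∀ z w, f z ≤ f w + d w z
  low : ∀ z w, d z w ≤ f z + f w

lemma PM.kat {d : P → P → ℝ} (h : PM d) (p : P) : Kat d (d p) :=
  ⟨fun z w => h.tri p w z, fun z w => by rw [h.comm p z]; exact h.tri z p w⟩

noncomputable def sd (f g : P → ℝ) : ℝ := ⨆ z, |f z - g z|

variable {d : P → P → ℝ}

lemma le_sd (hd : PM d) {f g : P → ℝ} (hf : Kat d f) (hg : Kat d g) (z : P) :
    |f z - g z| ≤ sd f g := by
  refine le_ciSup (f := fun z => |f z - g z|) ⟨f z + g z, ?_⟩ z
  rintro _ ⟨w, rfl⟩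
  have h1 := hf.lip w z
  have h2 := hg.low z w
  have h3 := hg.lip w z
  have h4 := hf.low z w
  exact abs_le.2 ⟨by linarith, by linarith⟩

lemma sd_le [Nonempty P] {f g : P → ℝ} {c : ℝ} (h : ∀ z, |f z - g z| ≤ c) : sd f g ≤ c :=
  ciSup_le h

lemma sd_kur (hd : PM d) {f : P → ℝ} (hf : Kat d f) (q : P) : sd f (d q) = f q := by
  have : Nonempty P := ⟨q⟩
  refine le_antisymm (sd_le fun z => ?_) ?_
  · have h1 := hf.lip z q
    have h2 := hf.low q z
    exact abs_le.2 ⟨by linarith, by linarith⟩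
  · have := le_sd hd hf (hd.kat q) q
    rw [hd.self, sub_zero] at this
    exact (le_abs_self _).trans this

lemma PM_sd [Nonempty P] (hd : PM d) {F : P → P → ℝ} (hF : ∀ p, Kat d (F p)) :
    PM (fun p q => sd (F p) (F q)) := by
  refine ⟨fun p => by simp [sd], fun p q => by simp only [sd, abs_sub_comm], fun p q r => ?_⟩
  refine sd_le fun z => (abs_sub_le _ (F q z) _).trans ?_
  exact add_le_add (le_sd hd (hF p) (hF q) z) (le_sd hd (hF q) (hF r) z)

noncomputable def ext {ι : Type v} (d : P → P → ℝ) (y : ι → P) (r : ι → ℝ) (z : P) : ℝ :=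
  ⨅ i, (r i + d (y i) z)

lemma ext_le {ι : Type v} (hd : PM d) {y : ι → P} {r : ι → ℝ}
    (h : ∀ i j, d (y i) (y j) ≤ r i + r j) (i : ι) (z : P) : ext d y r z ≤ r i + d (y i) z := by
  refine ciInf_le (f := fun i => r i + d (y i) z) ⟨0, ?_⟩ i
  rintro _ ⟨j, rfl⟩
  have h1 := h j j
  rw [hd.self] at h1
  have := hd.nonneg (y j) z
  show 0 ≤ r j + d (y j) z
  linarith

lemma le_ext {ι : Type v} [Nonempty ι] {y : ι → P} {r : ι → ℝ} {z : P} {c : ℝ}
    (h : ∀ i, c ≤ r i + d (y i) z) : c ≤ ext d y r z := le_ciInf h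

lemma kat_ext {ι : Type v} [Nonempty ι] (hd : PM d) {y : ι → P} {r : ι → ℝ}
    (h : ∀ i j, d (y i) (y j) ≤ r i + r j) : Kat d (ext d y r) := by
  constructor
  · intro z w
    rw [← sub_le_iff_le_add]
    refine le_ext fun i => ?_
    have := ext_le hd h i z
    have := hd.tri (y i) w z
    linarith
  · intro z w
    rw [← sub_le_iff_le_add]
    refine le_ext fun i => ?_
    rw [sub_le_comm]
    refine le_ext fun j => ?_
    have h1 := h i j
    have h2 := hd.tri z (y i) w
    have h3 := hd.tri (y i) (y j) w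
    rw [hd.comm z (y i)] at h2
    linarith

lemma exists_limit (D : ℕ → P → P → ℝ) (ρ : P → ℕ) (k : ℕ → ℕ) (hk : StrictMono k)
    (h : ∀ t p q, ρ p < k t → ρ q < k t → D (t + 1) p q = D t p q) :
    ∃ e : P → P → ℝ, ∀ t p q, ρ p < k t → ρ q < k t → e p q = D t p q := by
  have st : ∀ t s, t ≤ s → ∀ p q, ρ p < k t → ρ q < k t → D s p q = D t p q := by
    intro t s hts p q hp hq
    induction hts with
    | refl => rfl
    | step hm ih =>
      rw [h _ p q (hp.trans_le (hk.monotone hm)) (hq.trans_le (hk.monotone hm)), ih]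
  refine ⟨fun p q => D (ρ p + ρ q + 1) p q, fun t p q hp hq => ?_⟩
  have h1 := hk.id_le (ρ p + ρ q + 1)
  simp only [id] at h1
  rcases le_total t (ρ p + ρ q + 1) with h2 | h2
  · exact st _ _ h2 p q hp hq
  · exact (st _ _ h2 p q (by omega) (by omega)).symm

lemma PM_limit {D : ℕ → P → P → ℝ} {ρ : P → ℕ} {k : ℕ → ℕ} (hk : StrictMono k)
    (hD : ∀ t, PM (D t)) {e : P → P → ℝ}
    (he : ∀ t p q, ρ p < k t → ρ q < k t → e p q = D t p q) : PM e := by
  have h1 : ∀ t, t ≤ k t := fun t => hk.id_le t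
  refine ⟨fun p => ?_, fun p q => ?_, fun p q r => ?_⟩
  · have := h1 (ρ p + 1)
    rw [he (ρ p + 1) p p (by omega) (by omega), (hD _).self]
  · have := h1 (ρ p + ρ q + 1)
    rw [he (ρ p + ρ q + 1) p q (by omega) (by omega), he (ρ p + ρ q + 1) q p (by omega) (by omega),
      (hD _).comm]
  · have := h1 (ρ p + ρ q + ρ r + 1)
    rw [he (ρ p + ρ q + ρ r + 1) p q (by omega) (by omega),
      he (ρ p + ρ q + ρ r + 1) p r (by omega) (by omega),
      he (ρ p + ρ q + ρ r + 1) q r (by omega) (by omega)]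
    exact (hD _).tri _ _ _

end general

/-! ### a generic pseudometric on the natural numbers -/

lemma generic_step (d : ℕ → ℕ → ℝ) (hd : PM d) (n : ℕ) (q : List ℚ) :
    ∃ d' : ℕ → ℕ → ℝ, PM d' ∧ (∀ i j, i < n → j < n → d' i j = d i j) ∧
      ∀ (r : ℕ → ℝ) (ε : ℝ), q.length ≤ n →
        (∀ i < q.length, ∀ j < q.length, r i ≤ r j + d j i ∧ d i j ≤ r i + r j) →
        (∀ i < q.length, r i ≤ q.getD i 0 ∧ q.getD i 0 ≤ r i + ε) →
        ∀ i < q.length, r i ≤ d' n i ∧ d' n i ≤ r i + ε := by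
  classical
  by_cases hq : 0 < q.length ∧ ∀ i j : Fin q.length, d i j ≤ (q.getD i 0 : ℝ) + (q.getD j 0 : ℝ)
  · have : Nonempty (Fin q.length) := ⟨⟨0, hq.1⟩⟩
    let s := ext d (fun i : Fin q.length => (i : ℕ)) (fun i => (q.getD i 0 : ℝ))
    have hs : Kat d s := kat_ext hd hq.2
    let F : ℕ → ℕ → ℝ := fun p => if p = n then s else d p
    have hF : ∀ p, Kat d (F p) := fun p => by
      by_cases h : p = n
      · simp only [F, if_pos h]; exact hs
      · simp only [F, if_neg h]; exact hd.kat p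
    refine ⟨_, PM_sd hd hF, fun i j hi hj => ?_, fun r ε hn hr hrq i hi => ?_⟩
    · simp only [F, if_neg hi.ne, if_neg hj.ne]
      exact sd_kur hd (hd.kat i) j
    · have hin : i ≠ n := by omega
      simp only [F, if_neg hin, if_true]
      rw [sd_kur hd hs i]
      constructor
      · refine le_ext fun j => ?_
        have := (hr i hi j j.2).1
        have := (hrq j j.2).1
        linarith
      · have h1 := ext_le hd hq.2 ⟨i, hi⟩ i
        rw [hd.self, add_zero] at h1
        exact h1.trans (hrq i hi).2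
  · refine ⟨d, hd, fun _ _ _ _ => rfl, fun r ε _ hr hrq i hi => ?_⟩
    exfalso
    refine hq ⟨by omega, fun a b => ?_⟩
    have := (hr a a.2 b b.2).2
    have := (hrq a a.2).1
    have := (hrq b b.2).1
    linarith

theorem exists_generic : ∃ d : ℕ → ℕ → ℝ, PM d ∧ ∀ (k : ℕ) (r : ℕ → ℝ) (ε : ℝ), 0 < ε →
    (∀ i < k, ∀ j < k, r i ≤ r j + d j i ∧ d i j ≤ r i + r j) →
    ∃ n, k ≤ n ∧ ∀ i < k, r i ≤ d n i ∧ d n i ≤ r i + ε := by
  obtain ⟨e, he⟩ := exists_surjective_nat (List ℚ)
  choose st h1 h2 h3 using generic_step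
  let D : ℕ → {d : ℕ → ℕ → ℝ // PM d} := fun t => Nat.rec
    ⟨fun _ _ => 0, ⟨fun _ => rfl, fun _ _ => rfl, fun _ _ _ => by simp⟩⟩
    (fun t d => ⟨st d.1 d.2 t (e t.unpair.1), h1 _ _ _ _⟩) t
  have hD : ∀ t, (D (t + 1)).1 = st (D t).1 (D t).2 t (e t.unpair.1) := fun _ => rfl
  obtain ⟨d, hd⟩ := exists_limit (fun t => (D t).1) id id strictMono_id
    (fun t p q hp hq => by rw [hD]; exact h2 _ _ _ _ _ _ hp hq)
  refine ⟨d, PM_limit strictMono_id (fun t => (D t).2) hd, fun k r ε hε hr => ?_⟩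
  choose c hc1 hc2 using fun i => exists_rat_btwn (show r i < r i + ε by linarith)
  obtain ⟨a, ha⟩ := he ((List.range k).map c)
  have hk : k ≤ Nat.pair a k := Nat.right_le_pair a k
  refine ⟨Nat.pair a k, hk, fun i hi => ?_⟩
  set t := Nat.pair a k with ht
  have hq : e t.unpair.1 = (List.range k).map c := by rw [ht, Nat.unpair_pair, ha]
  have hl : ((List.range k).map c).length = k := by simp
  rw [hd (t + 1) t i (Nat.lt_succ_self _) (by show i < t + 1; omega), hD, hq]
  refine h3 _ _ _ _ r ε (by rw [hl]; exact hk) ?_ ?_ i (by rw [hl]; exact hi)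
  · rw [hl]
    intro a ha b hb
    rw [← hd t b a (by show b < t; omega) (by show a < t; omega),
      ← hd t a b (by show a < t; omega) (by show b < t; omega)]
    exact hr a ha b hb
  · rw [hl]
    intro a ha
    have : ((List.range k).map c).getD a 0 = c a := by simp [List.getD, ha]
    rw [this]
    exact ⟨(hc1 a).le, (hc2 a).le⟩

end Pool.Agent.H501377
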